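import Pool.Agent.PFD.StmtsD1

/-!
# Squad PFD, block D1: the Casimir rules (helper78)

For a Frobenius system `c` with symmetric form: `FS.m1 .. FS.m4`.  For `D : Net ..`:
`Net.m1 .. Net.m5` (functions on `B`), `Net.n1, n2, n3` (functions on `A`, applied to elements of
`B`), `Net.k1 .. k4` (the rules for `A`), `Net.cp`, `Net.cp'`, `Net.cq`, `Net.cq'`, `Net.ox ..`.
-/

open scoped BigOperators

noncomputable section

namespace Pool.Agent.PFD

open Pool.Agent.PFC.B1

section bil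
variable {R M M' X ι : Type} [CommRing R] [AddCommGroup M] [Module R M]
  [AddCommGroup M'] [Module R M'] [AddCommGroup X] [Module R X] {F : M → M' → X}

theorem Bil.z1 (h : Bil R F) (b : M') : F 0 b = 0 := by
  have := h.s1 0 0 b
  simpa using this

theorem Bil.z2 (h : Bil R F) (a : M) : F a 0 = 0 := by
  have := h.s2 0 a 0
  simpa using this

theorem Bil.n1 (h : Bil R F) (a : M) (b : M') : F (-a) b = - F a b := by
  have := h.s1 (-1) a b
  simpa using this

theorem Bil.n2 (h : Bil R F) (a : M) (b : M') : F a (-b) = - F a b := by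
  have := h.s2 (-1) a b
  simpa using this

theorem Bil.d1 (h : Bil R F) (a a' : M) (b : M') : F (a - a') b = F a b - F a' b := by
  rw [sub_eq_add_neg, h.a1, h.n1, sub_eq_add_neg]

theorem Bil.d2 (h : Bil R F) (a : M) (b b' : M') : F a (b - b') = F a b - F a b' := by
  rw [sub_eq_add_neg, h.a2, h.n2, sub_eq_add_neg]

theorem Bil.sum1 (h : Bil R F) (s : Finset ι) (f : ι → M) (b : M') :
    F (∑ i ∈ s, f i) b = ∑ i ∈ s, F (f i) b := by
  classical
  induction s using Finset.induction_on with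
  | empty => simpa using h.z1 b
  | insert a s ha ih => rw [Finset.sum_insert ha, h.a1, ih, Finset.sum_insert ha]

theorem Bil.sum2 (h : Bil R F) (s : Finset ι) (f : ι → M') (a : M) :
    F a (∑ i ∈ s, f i) = ∑ i ∈ s, F a (f i) := by
  classical
  induction s using Finset.induction_on with
  | empty => simpa using h.z2 a
  | insert b s hb ih => rw [Finset.sum_insert hb, h.a2, ih, Finset.sum_insert hb]

/-- a bilinear function from linear maps -/
theorem Bil.of (f : M →ₗ[R] M' →ₗ[R] X) : Bil R (fun a b => f a b) :=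
  ⟨fun a a' b => by simp, fun a b b' => by simp, fun r a b => by simp, fun r a b => by simp⟩

end bil

section fs
variable {R A J X : Type} [CommRing R] [Ring A] [Algebra R A] [Fintype J] [AddCommGroup X]
  [Module R X]

theorem FS.m1 (c : FS R A J) {F : A → A → X} (h : Bil R F) (x : A) :
    ∑ i, F (x * c.b i) (c.b' i) = ∑ i, F (c.b i) (c.b' i * x) := by
  have e1 : ∀ i, F (x * c.b i) (c.b' i) =
      ∑ k, c.lam (c.b' k * (x * c.b i)) • F (c.b k) (c.b' i) := fun i => by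
    conv_lhs => rw [← c.h1 (x * c.b i), h.sum1]
    exact Finset.sum_congr rfl fun k _ => h.s1 _ _ _
  have e2 : ∀ k, F (c.b k) (c.b' k * x) =
      ∑ i, c.lam (c.b' k * x * c.b i) • F (c.b k) (c.b' i) := fun k => by
    conv_lhs => rw [← c.h2 (c.b' k * x), h.sum2]
    exact Finset.sum_congr rfl fun i _ => h.s2 _ _ _
  rw [Finset.sum_congr rfl fun i _ => e1 i, Finset.sum_comm,
    Finset.sum_congr rfl fun i _ => e2 i]
  exact Finset.sum_congr rfl fun k _ => Finset.sum_congr rfl fun i _ => by rw [mul_assoc]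

theorem FS.m3 (c : FS R A J) (cs : ∀ x y, c.lam (x * y) = c.lam (y * x)) {F : A → A → X}
    (h : Bil R F) : ∑ i, F (c.b i) (c.b' i) = ∑ i, F (c.b' i) (c.b i) := by
  have e1 : ∀ k, F (c.b k) (c.b' k) = ∑ i, c.lam (c.b' i * c.b' k) • F (c.b k) (c.b i) :=
    fun k => by
    conv_lhs => rw [← c.h1 (c.b' k), h.sum2]
    exact Finset.sum_congr rfl fun i _ => h.s2 _ _ _
  have e2 : ∀ i, F (c.b' i) (c.b i) = ∑ k, c.lam (c.b' k * c.b' i) • F (c.b k) (c.b i) :=
    fun i => by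
    conv_lhs => rw [← c.h1 (c.b' i), h.sum1]
    exact Finset.sum_congr rfl fun k _ => h.s1 _ _ _
  rw [Finset.sum_congr rfl fun i _ => e1 i, Finset.sum_comm,
    Finset.sum_congr rfl fun i _ => e2 i]
  exact Finset.sum_congr rfl fun k _ => Finset.sum_congr rfl fun i _ => by rw [cs]

theorem FS.m2 (c : FS R A J) (cs : ∀ x y, c.lam (x * y) = c.lam (y * x)) {F : A → A → X}
    (h : Bil R F) (x : A) :
    ∑ i, F (c.b i * x) (c.b' i) = ∑ i, F (c.b i) (x * c.b' i) := by
  have e1 : ∀ i, F (c.b i * x) (c.b' i) =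
      ∑ k, c.lam (c.b' k * (c.b i * x)) • F (c.b k) (c.b' i) := fun i => by
    conv_lhs => rw [← c.h1 (c.b i * x), h.sum1]
    exact Finset.sum_congr rfl fun k _ => h.s1 _ _ _
  have e2 : ∀ k, F (c.b k) (x * c.b' k) =
      ∑ i, c.lam (x * c.b' k * c.b i) • F (c.b k) (c.b' i) := fun k => by
    conv_lhs => rw [← c.h2 (x * c.b' k), h.sum2]
    exact Finset.sum_congr rfl fun i _ => h.s2 _ _ _
  rw [Finset.sum_congr rfl fun i _ => e1 i, Finset.sum_comm,
    Finset.sum_congr rfl fun i _ => e2 i]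
  exact Finset.sum_congr rfl fun k _ => Finset.sum_congr rfl fun i _ => by
    rw [mul_assoc x, cs x, mul_assoc]

/-- (M4) in its four forms -/
theorem FS.m4a (c : FS R A J) (a : A) : ∑ i, c.lam (a * c.b i) • c.b' i = a := c.h2 a

theorem FS.m4b (c : FS R A J) (cs : ∀ x y, c.lam (x * y) = c.lam (y * x)) (a : A) :
    ∑ i, c.lam (a * c.b' i) • c.b i = a := by
  conv_rhs => rw [← c.h1 a]
  exact Finset.sum_congr rfl fun i _ => by rw [cs]

theorem FS.m4c (c : FS R A J) (cs : ∀ x y, c.lam (x * y) = c.lam (y * x)) (a : A) :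
    ∑ i, c.lam (c.b i * a) • c.b' i = a := by
  conv_rhs => rw [← c.h2 a]
  exact Finset.sum_congr rfl fun i _ => by rw [cs]

theorem FS.m4d (c : FS R A J) (a : A) : ∑ i, c.lam (c.b' i * a) • c.b i = a := c.h1 a

/-- an element is determined by the form -/
theorem FS.ext (c : FS R A J) {a a' : A} (h : ∀ x, c.lam (a * x) = c.lam (a' * x)) : a = a' := by
  rw [← c.h2 a, ← c.h2 a']
  exact Finset.sum_congr rfl fun i _ => by rw [h]

end fs

section net
variable {R B A I J N X : Type} [CommRing R] [Ring B] [Algebra R B] [Ring A] [Algebra R A]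
    [Fintype I] [Fintype J] [Fintype N] [AddCommGroup X] [Module R X] (D : Net R B A I J N)

/-! ### functions on `B` -/

theorem Net.m1 {F : B → B → X} (h : Bil R F) (x : B) :
    ∑ i, F (x * D.c.b i) (D.c.b' i) = ∑ i, F (D.c.b i) (D.c.b' i * x) := FS.m1 D.c h x

theorem Net.m2 {F : B → B → X} (h : Bil R F) (x : B) :
    ∑ i, F (D.c.b i * x) (D.c.b' i) = ∑ i, F (D.c.b i) (x * D.c.b' i) := FS.m2 D.c D.cs h x

theorem Net.m3 {F : B → B → X} (h : Bil R F) :
    ∑ i, F (D.c.b i) (D.c.b' i) = ∑ i, F (D.c.b' i) (D.c.b i) := FS.m3 D.c D.cs h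

theorem Net.m4a (a : B) : ∑ i, D.c.lam (a * D.c.b i) • D.c.b' i = a := D.c.h2 a
theorem Net.m4b (a : B) : ∑ i, D.c.lam (a * D.c.b' i) • D.c.b i = a := FS.m4b D.c D.cs a
theorem Net.m4c (a : B) : ∑ i, D.c.lam (D.c.b i * a) • D.c.b' i = a := FS.m4c D.c D.cs a
theorem Net.m4d (a : B) : ∑ i, D.c.lam (D.c.b' i * a) • D.c.b i = a := D.c.h1 a

theorem Net.m5 {F : B → B → X} (h : Bil R F) {v : B →ₗ[R] B} {De : B} (hv : D.Der v De) :
    ∑ i, F (D.c.b i) (v (D.c.b' i)) = - ∑ i, F (v (D.c.b i) + D.c.b i * De) (D.c.b' i) := by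
  have e1 : ∀ i, F (D.c.b i) (v (D.c.b' i)) =
      ∑ k, D.c.lam (v (D.c.b' i) * D.c.b k) • F (D.c.b i) (D.c.b' k) := fun i => by
    conv_lhs => rw [← D.c.h2 (v (D.c.b' i)), h.sum2]
    exact Finset.sum_congr rfl fun k _ => h.s2 _ _ _
  have e2 : ∀ k, F (v (D.c.b k) + D.c.b k * De) (D.c.b' k) =
      ∑ i, D.c.lam (D.c.b' i * (v (D.c.b k) + D.c.b k * De)) • F (D.c.b i) (D.c.b' k) :=
    fun k => by
    conv_lhs => rw [← D.c.h1 (v (D.c.b k) + D.c.b k * De), h.sum1]
    exact Finset.sum_congr rfl fun i _ => h.s1 _ _ _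
  rw [Finset.sum_congr rfl fun i _ => e1 i, Finset.sum_comm,
    Finset.sum_congr rfl fun k _ => e2 k, ← Finset.sum_neg_distrib]
  refine Finset.sum_congr rfl fun k _ => ?_
  rw [← Finset.sum_neg_distrib]
  refine Finset.sum_congr rfl fun i _ => ?_
  rw [← neg_smul]
  congr 1
  have h1 := hv.div (D.c.b' i * D.c.b k)
  rw [hv.der, map_add] at h1
  rw [mul_add, map_add, ← mul_assoc]
  linear_combination h1

/-! ### functions on `A`, applied to elements of `B` -/

theorem Net.bilj {F : A → A → X} (h : Bil R F) : Bil R (fun a b => F (D.j a) (D.j b)) :=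
  ⟨fun a a' b => by simp only [map_add]; rw [h.a1], fun a b b' => by simp only [map_add]; rw [h.a2],
    fun r a b => by simp only [map_smul]; rw [h.s1], fun r a b => by simp only [map_smul]; rw [h.s2]⟩

theorem Net.n1 {F : A → A → X} (h : Bil R F) (x : B) :
    ∑ i, F (D.j x * D.u i) (D.u' i) = ∑ i, F (D.u i) (D.u' i * D.j x) := by
  have := D.m1 (D.bilj h) x
  simp only [map_mul] at this
  exact this

theorem Net.n2 {F : A → A → X} (h : Bil R F) (x : B) :
    ∑ i, F (D.u i * D.j x) (D.u' i) = ∑ i, F (D.u i) (D.j x * D.u' i) := by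
  have := D.m2 (D.bilj h) x
  simp only [map_mul] at this
  exact this

theorem Net.n3 {F : A → A → X} (h : Bil R F) :
    ∑ i, F (D.u i) (D.u' i) = ∑ i, F (D.u' i) (D.u i) := D.m3 (D.bilj h)

/-! ### the rules for `A` -/

theorem Net.k1 {F : A → A → X} (h : Bil R F) (x : A) :
    ∑ p, F (x * D.d.b p) (D.d.b' p) = ∑ p, F (D.d.b p) (D.d.b' p * x) := FS.m1 D.d h x

theorem Net.k2 {F : A → A → X} (h : Bil R F) (x : A) :
    ∑ p, F (D.d.b p * x) (D.d.b' p) = ∑ p, F (D.d.b p) (x * D.d.b' p) := FS.m2 D.d D.ds h x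

theorem Net.k3 {F : A → A → X} (h : Bil R F) :
    ∑ p, F (D.d.b p) (D.d.b' p) = ∑ p, F (D.d.b' p) (D.d.b p) := FS.m3 D.d D.ds h

theorem Net.k4a (a : A) : ∑ p, D.T (a * D.d.b p) • D.d.b' p = a := D.d.h2 a
theorem Net.k4b (a : A) : ∑ p, D.T (a * D.d.b' p) • D.d.b p = a := FS.m4b D.d D.ds a
theorem Net.k4c (a : A) : ∑ p, D.T (D.d.b p * a) • D.d.b' p = a := FS.m4c D.d D.ds a
theorem Net.k4d (a : A) : ∑ p, D.T (D.d.b' p * a) • D.d.b p = a := D.d.h1 a

/-! ### the form `T` -/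

theorem Net.T_add (a a' : A) : D.T (a + a') = D.T a + D.T a' := map_add _ _ _
theorem Net.T_sub (a a' : A) : D.T (a - a') = D.T a - D.T a' := map_sub _ _ _
theorem Net.T_neg (a : A) : D.T (-a) = - D.T a := map_neg _ _
theorem Net.T_zero : D.T 0 = 0 := map_zero _
theorem Net.T_smul (r : R) (a : A) : D.T (r • a) = r * D.T a := by
  show D.d.lam (r • a) = r * D.d.lam a
  rw [map_smul, smul_eq_mul]
theorem Net.T_sum {ι : Type} (s : Finset ι) (f : ι → A) : D.T (∑ i ∈ s, f i) = ∑ i ∈ s, D.T (f i) :=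
  map_sum _ _ _
theorem Net.T_comm (a b : A) : D.T (a * b) = D.T (b * a) := D.ds a b
theorem Net.T_pr (a : A) : D.T a = D.c.lam (D.pr a) := D.ort a
theorem Net.T_j (b : B) : D.T (D.j b) = D.c.lam b := by rw [D.T_pr, D.pr_j]

/-- `T(b a) = t(b pr a)` -/
theorem Net.T_jl (b : B) (a : A) : D.T (D.j b * a) = D.c.lam (b * D.pr a) := by
  rw [D.T_pr, D.pr_l]

theorem Net.T_jr (a : A) (b : B) : D.T (a * D.j b) = D.c.lam (D.pr a * b) := by
  rw [D.T_pr, D.pr_r]

/-! ### orthogonality -/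

theorem Net.oxr (r : N) (b : B) : D.T (D.x r * D.j b) = 0 := by
  rw [D.T_jr, D.px, zero_mul, map_zero]
theorem Net.oxl (r : N) (b : B) : D.T (D.j b * D.x r) = 0 := by
  rw [D.T_jl, D.px, mul_zero, map_zero]
theorem Net.oyr (r : N) (b : B) : D.T (D.y r * D.j b) = 0 := by
  rw [D.T_jr, D.py, zero_mul, map_zero]
theorem Net.oyl (r : N) (b : B) : D.T (D.j b * D.y r) = 0 := by
  rw [D.T_jl, D.py, mul_zero, map_zero]

/-- `T(q(a) a') = T(a q(a'))` -/
theorem Net.qadj (a a' : A) : D.T ((a - D.j (D.pr a)) * a') = D.T (a * (a' - D.j (D.pr a'))) := by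
  rw [sub_mul, mul_sub, D.T_sub, D.T_sub, D.T_jl, D.T_jr]

/-- `T(q(a) p) = T(a p)` if `pr p = 0` -/
theorem Net.qT (a p : A) (hp : D.pr p = 0) : D.T ((a - D.j (D.pr a)) * p) = D.T (a * p) := by
  rw [D.qadj, hp, map_zero, sub_zero]

theorem Net.qT' (a p : A) (hp : D.pr p = 0) : D.T (p * (a - D.j (D.pr a))) = D.T (p * a) := by
  rw [D.T_comm, D.qT a p hp, D.T_comm]

/-- `j (pr a) = ∑ T(a b_i) b_i'` and its variants -/
theorem Net.jpr_a (a : A) : D.j (D.pr a) = ∑ i, D.T (a * D.u i) • D.u' i := by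
  conv_lhs => rw [← D.c.h2 (D.pr a), map_sum]
  exact Finset.sum_congr rfl fun i _ => by rw [map_smul, Net.u, D.T_jr]; rfl

theorem Net.jpr_b (a : A) : D.j (D.pr a) = ∑ i, D.T (D.u' i * a) • D.u i := by
  conv_lhs => rw [← D.c.h1 (D.pr a), map_sum]
  exact Finset.sum_congr rfl fun i _ => by rw [map_smul, Net.u', D.T_jl]; rfl

theorem Net.jpr_c (a : A) : D.j (D.pr a) = ∑ i, D.T (a * D.u' i) • D.u i := by
  rw [D.jpr_b]
  exact Finset.sum_congr rfl fun i _ => by rw [D.T_comm]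

theorem Net.jpr_d (a : A) : D.j (D.pr a) = ∑ i, D.T (D.u i * a) • D.u' i := by
  rw [D.jpr_a]
  exact Finset.sum_congr rfl fun i _ => by rw [D.T_comm]

/-! ### (CP) and (CQ) -/

theorem Net.cp {F : A → A → X} (h : Bil R F) :
    ∑ r, ∑ i, ∑ l, F (D.u i * D.x r * D.u' l) (D.u l * D.y r * D.u' i) =
      ∑ p, F (D.d.b p) (D.d.b' p) - ∑ i, F (D.u i) (D.u' i) := by
  have e0 : ∀ p, F (D.j (D.pr (D.d.b p))) (D.d.b' p) =
      ∑ i, D.T (D.u' i * D.d.b p) • F (D.u i) (D.d.b' p) := fun p => by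
    rw [D.jpr_b, h.sum1]
    exact Finset.sum_congr rfl fun i _ => h.s1 _ _ _
  have e1 : ∑ p, F (D.j (D.pr (D.d.b p))) (D.d.b' p) = ∑ i, F (D.u i) (D.u' i) := by
    rw [Finset.sum_congr rfl fun p _ => e0 p, Finset.sum_comm]
    refine Finset.sum_congr rfl fun i _ => ?_
    conv_rhs => rw [← D.k4a (D.u' i), h.sum2]
    exact Finset.sum_congr rfl fun p _ => (h.s2 _ _ _).symm
  have e2 : ∀ p, F (D.d.b p - D.j (D.pr (D.d.b p))) (D.d.b' p) =
      ∑ r, ∑ i, ∑ l, D.T (D.u l * D.y r * D.u' i * D.d.b p) •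
        F (D.u i * D.x r * D.u' l) (D.d.b' p) := fun p => by
    rw [← D.cx, h.sum1]
    refine Finset.sum_congr rfl fun r _ => ?_
    rw [h.sum1]
    refine Finset.sum_congr rfl fun i _ => ?_
    rw [h.sum1]
    exact Finset.sum_congr rfl fun l _ => h.s1 _ _ _
  have e3 : ∑ p, F (D.d.b p - D.j (D.pr (D.d.b p))) (D.d.b' p) =
      ∑ r, ∑ i, ∑ l, F (D.u i * D.x r * D.u' l) (D.u l * D.y r * D.u' i) := by
    rw [Finset.sum_congr rfl fun p _ => e2 p, Finset.sum_comm]
    refine Finset.sum_congr rfl fun r _ => ?_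
    rw [Finset.sum_comm]
    refine Finset.sum_congr rfl fun i _ => ?_
    rw [Finset.sum_comm]
    refine Finset.sum_congr rfl fun l _ => ?_
    conv_rhs => rw [← D.k4a (D.u l * D.y r * D.u' i), h.sum2]
    exact Finset.sum_congr rfl fun p _ => (h.s2 _ _ _).symm
  rw [← e3, ← e1, ← Finset.sum_sub_distrib]
  exact Finset.sum_congr rfl fun p _ => h.d1 _ _ _

/-- (CP) with `x` and `y` exchanged -/
theorem Net.cp' {F : A → A → X} (h : Bil R F) :
    ∑ r, ∑ i, ∑ l, F (D.u i * D.y r * D.u' l) (D.u l * D.x r * D.u' i) =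
      ∑ p, F (D.d.b p) (D.d.b' p) - ∑ i, F (D.u i) (D.u' i) := D.op.cp h

/-- (CQ) -/
theorem Net.cq (a : A) : ∑ s, ∑ i, ∑ l, D.T (D.u i * D.x s * D.u l * a) •
    (D.u' l * D.y s * D.u' i) = a - D.j (D.pr a) := by
  rw [← D.cy a]
  refine Finset.sum_congr rfl fun s _ => ?_
  rw [Finset.sum_comm]
  have key : ∀ i : I, Bil R (fun p q : A => D.T (D.u i * D.x s * p * a) • (q * D.y s * D.u' i)) :=
    fun i => ⟨fun p p' q => by simp only [mul_add, add_mul, D.T_add, add_smul],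
      fun p q q' => by simp only [add_mul, smul_add],
      fun r p q => by simp only [mul_smul_comm, smul_mul_assoc, D.T_smul, mul_smul],
      fun r p q => by rw [smul_mul_assoc, smul_mul_assoc, smul_comm]⟩
  rw [Finset.sum_comm]
  calc ∑ i, ∑ l, D.T (D.u i * D.x s * D.u l * a) • (D.u' l * D.y s * D.u' i)
      = ∑ i, ∑ l, D.T (D.u i * D.x s * D.u' l * a) • (D.u l * D.y s * D.u' i) :=
        Finset.sum_congr rfl fun i _ => D.n3 (key i)
    _ = ∑ l, ∑ i, D.T (D.u i * D.x s * D.u' l * a) • (D.u l * D.y s * D.u' i) :=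
        Finset.sum_comm

/-- (CQ) with `x` and `y` exchanged -/
theorem Net.cq' (a : A) : ∑ s, ∑ i, ∑ l, D.T (D.u i * D.y s * D.u l * a) •
    (D.u' l * D.x s * D.u' i) = a - D.j (D.pr a) := D.op.cq a

/-- (CQ) applied to a linear function -/
theorem Net.cqf (f : A →ₗ[R] X) (a : A) : ∑ s, ∑ i, ∑ l, D.T (D.u i * D.x s * D.u l * a) •
    f (D.u' l * D.y s * D.u' i) = f (a - D.j (D.pr a)) := by
  rw [← D.cq a, map_sum]
  refine Finset.sum_congr rfl fun s _ => ?_
  rw [map_sum]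
  refine Finset.sum_congr rfl fun i _ => ?_
  rw [map_sum]
  exact Finset.sum_congr rfl fun l _ => (map_smul _ _ _).symm

/-- `pr` of a two-sided multiple -/
theorem Net.pr_lr (b b' : B) (a : A) : D.pr (D.j b * a * D.j b') = b * D.pr a * b' := by
  rw [D.pr_r, D.pr_l]

end net

end Pool.Agent.PFD
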