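import Pool.Agent.Helper64_PFD.SUM
import Pool.Agent.Helper41_PFD.ROT
import Pool.Agent.Helper82_PFD.RO6
import Pool.Agent.Helper48_PFD.RES
import Pool.Agent.Helper34_PFD.GBZ
import Pool.Agent.Helper81_PFD.Conn
import Pool.Agent.Helper84_PFD.GB1
import Pool.Agent.Helper19_PFD.GB3
import Pool.Agent.Helper94_PFD.ADJ
import Pool.Agent.Helper25_PFD.KAP
import Pool.Agent.Helper92_PFD.S1A
import Pool.Agent.Helper77_PFD.S1B
import Pool.Agent.Helper33_PFD.LNK
import Pool.Agent.Helper99_PFD.GAU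
import Pool.Agent.Helper41_PFD.W13
import Pool.Agent.Helper91_PFD.NID
import Pool.Agent.Helper41_PFD.TRF
import Pool.Agent.Helper69_PFD.TPB
import Pool.Agent.Helper13_PFD.TZB
import Pool.Agent.Helper91_PFD.RTX
import Pool.Agent.Helper91_PFD.RTU
import Pool.Agent.Helper10_PFD.TRC
import Pool.Agent.Helper24_PFD.NTX
import Pool.Agent.Helper81_PFD.FOT

/-!
# Squad PFD, block D1: the first order theorem, assembled (helper78)
-/

namespace Pool.Agent.PFD.H78

theorem trc : TrcStmt :=
  H10.trc H91.rtx H91.rtu (H13.tzb H41.trf) (H69.tpb H41.trf) H81.dpp H25.kap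

theorem nid : NidStmt :=
  H91.nid H64.sum H41.rot H82.ro6 H48.res H34.gbz H84.gb1 H19.gb3
    (H92.s1a H94.adj H81.con H25.kap) (H77.s1b H25.kap) (H41.w13 H33.lnk H81.con H99.gau)

/-- The first order theorem. -/
theorem fot : FotStmt := H81.fot H24.ntx H91.rtx H91.rtu trc nid

end Pool.Agent.PFD.H78
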